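import Mathlib

/-!
# The DP color function bound `f(G,k) ≤ P_DP(G, χ_DP(G)+k-1)^k` is never sharp for all `k`

For every finite graph `G` with at least one vertex and every `k ≥ 2` with
`χ_DP(G) + k - 1 ≥ Δ(G) + 2` we show `f(G,k) < P_DP(G, χ_DP(G)+k-1)^k`.
-/

namespace Pool.Agent.Results.MP_924496_co.NeverSharp

open SimpleGraph

/-- An `m`-fold cover of `G`. The part `L(v)` is `{v} × Fin m` (a clique); `R u v i j` says that
`(u,i)` and `(v,j)` are joined, where `u v` is an edge of `G`; between `L(u)` and `L(v)` the edges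
form a matching (by `symm`, the matching condition holds from both sides). -/
structure Cover {V : Type} (G : SimpleGraph V) (m : ℕ) where
  R : V → V → Fin m → Fin m → Prop
  adj : ∀ {u v i j}, R u v i j → G.Adj u v
  symm : ∀ {u v i j}, R u v i j → R v u j i
  matching : ∀ {u v i j j'}, R u v i j → R u v i j' → j = j'

/-- `f` is a coloring of the cover: the vertices `(v, f v)` form an independent set. -/
def Cover.IsColoring {V : Type} {G : SimpleGraph V} {m : ℕ} (C : Cover G m) (f : V → Fin m) :
    Prop :=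
  ∀ u v, ¬ C.R u v (f u) (f v)

/-- Every `m`-fold cover of `G` has a coloring. -/
def DPColorable {V : Type} (G : SimpleGraph V) (m : ℕ) : Prop :=
  ∀ C : Cover G m, ∃ f, C.IsColoring f

/-- The DP-chromatic number. -/
noncomputable def chiDP {V : Type} (G : SimpleGraph V) : ℕ := sInf {m | DPColorable G m}

/-- The DP color function: the least number of colorings of an `m`-fold cover. -/
noncomputable def PDP {V : Type} (G : SimpleGraph V) (m : ℕ) : ℕ :=
  sInf {n | ∃ C : Cover G m, n = Nat.card {f : V → Fin m // C.IsColoring f}}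

/-- `f(G,k)`: the least `t` with `χ_DP(G □ K_{k,t}) = χ_DP(G) + k`. -/
noncomputable def fDP {V : Type} (G : SimpleGraph V) (k : ℕ) : ℕ :=
  sInf {t | chiDP (G □ completeBipartiteGraph (Fin k) (Fin t)) = chiDP G + k}

section Basic

variable {V : Type} {G : SimpleGraph V}

/-- Pull a cover back along injections of the colour sets. -/
def Cover.pull {m n : ℕ} (C : Cover G m) (e : V → Fin n → Fin m)
    (he : ∀ v, Function.Injective (e v)) : Cover G n where
  R u v i j := C.R u v (e u i) (e v j)
  adj h := C.adj h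
  symm h := C.symm h
  matching h h' := he _ (C.matching h h')

theorem list_version {m n : ℕ} (h : DPColorable G n) (C : Cover G m) (S : V → Finset (Fin m))
    (hS : ∀ v, n ≤ (S v).card) : ∃ f, C.IsColoring f ∧ ∀ v, f v ∈ S v := by
  have he : ∀ v, ∃ e : Fin n → Fin m, Function.Injective e ∧ ∀ i, e i ∈ S v := by
    intro v
    let g := (S v).orderEmbOfFin rfl
    refine ⟨fun i => g (Fin.castLE (hS v) i), ?_, ?_⟩
    · intro i j hij
      exact Fin.castLE_injective (hS v) (g.injective hij)
    · intro i
      exact Finset.orderEmbOfFin_mem _ _ _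
  choose e he1 he2 using he
  obtain ⟨f, hf⟩ := h (C.pull e he1)
  exact ⟨fun v => e v (f v), fun u v hR => hf u v hR, fun v => he2 v _⟩

theorem DPColorable.mono {m n : ℕ} (h : DPColorable G n) (hnm : n ≤ m) : DPColorable G m := by
  intro C
  obtain ⟨f, hf, -⟩ := list_version h C (fun _ => Finset.univ) (fun v => by simpa using hnm)
  exact ⟨f, hf⟩

/-- Greedy colouring avoiding a given colour at every vertex. -/
theorem greedy [Fintype V] [DecidableRel G.Adj] {m : ℕ} (hm : G.maxDegree + 2 ≤ m)
    (C : Cover G m) (g : V → Fin m) : ∃ f, C.IsColoring f ∧ ∀ v, f v ≠ g v := by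
  classical
  have main : ∀ S : Finset V, ∃ f : V → Fin m, (∀ u ∈ S, ∀ v ∈ S, ¬ C.R u v (f u) (f v)) ∧
      ∀ v ∈ S, f v ≠ g v := by
    intro S
    induction S using Finset.induction_on with
    | empty => exact ⟨g, by simp, by simp⟩
    | insert a S ha ih =>
      obtain ⟨f, hf1, hf2⟩ := ih
      let bl : V → Fin m := fun u => if h : ∃ j, C.R u a (f u) j then h.choose else g a
      have hcard : (insert (g a) ((G.neighborFinset a).image bl)).card < m := by
        have h1 := Finset.card_insert_le (g a) ((G.neighborFinset a).image bl)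
        have h2 : ((G.neighborFinset a).image bl).card ≤ (G.neighborFinset a).card :=
          Finset.card_image_le
        have h3 : (G.neighborFinset a).card ≤ G.maxDegree := by
          rw [SimpleGraph.card_neighborFinset_eq_degree]
          exact G.degree_le_maxDegree a
        omega
      have hex : ∃ c : Fin m, c ∉ insert (g a) ((G.neighborFinset a).image bl) := by
        by_contra hcon
        push Not at hcon
        have : (Finset.univ : Finset (Fin m)) ⊆ insert (g a) ((G.neighborFinset a).image bl) :=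
          fun c _ => hcon c
        have h4 := Finset.card_le_card this
        rw [Finset.card_univ, Fintype.card_fin] at h4
        omega
      obtain ⟨c, hc⟩ := hex
      rw [Finset.mem_insert, not_or] at hc
      have hca : c ≠ g a := hc.1
      have hcb : ∀ u ∈ S, ¬ C.R u a (f u) c := by
        intro u hu hR
        apply hc.2
        rw [Finset.mem_image]
        refine ⟨u, ?_, ?_⟩
        · rw [SimpleGraph.mem_neighborFinset]
          exact (C.adj hR).symm
        · have hx : ∃ j, C.R u a (f u) j := ⟨c, hR⟩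
          have : bl u = hx.choose := dif_pos hx
          rw [this]
          exact C.matching hx.choose_spec hR
      refine ⟨Function.update f a c, ?_, ?_⟩
      · intro u hu v hv
        by_cases hua : u = a
        · subst hua
          by_cases hva : v = u
          · subst hva
            intro hR
            exact (C.adj hR).ne rfl
          · have hvS : v ∈ S := (Finset.mem_insert.mp hv).resolve_left hva
            rw [Function.update_self, Function.update_of_ne hva]
            intro hR
            exact hcb v hvS (C.symm hR)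
        · have huS : u ∈ S := (Finset.mem_insert.mp hu).resolve_left hua
          by_cases hva : v = a
          · subst hva
            rw [Function.update_self, Function.update_of_ne hua]
            exact hcb u huS
          · have hvS : v ∈ S := (Finset.mem_insert.mp hv).resolve_left hva
            rw [Function.update_of_ne hua, Function.update_of_ne hva]
            exact hf1 u huS v hvS
      · intro v hv
        by_cases hva : v = a
        · subst hva
          rw [Function.update_self]
          exact hca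
        · rw [Function.update_of_ne hva]
          exact hf2 v ((Finset.mem_insert.mp hv).resolve_left hva)
  obtain ⟨f, hf1, hf2⟩ := main Finset.univ
  exact ⟨f, fun u v => hf1 u (Finset.mem_univ _) v (Finset.mem_univ _),
    fun v => hf2 v (Finset.mem_univ _)⟩

theorem dpColorable_chiDP [Fintype V] (G : SimpleGraph V) : DPColorable G (chiDP G) := by
  classical
  have hne : {m | DPColorable G m}.Nonempty := by
    refine ⟨G.maxDegree + 2, fun C => ?_⟩
    obtain ⟨f, hf, -⟩ := greedy le_rfl C (fun _ => 0)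
    exact ⟨f, hf⟩
  exact Nat.sInf_mem hne

theorem chiDP_le {m : ℕ} (h : DPColorable G m) : chiDP G ≤ m := Nat.sInf_le h

theorem lt_chiDP [Fintype V] {m : ℕ} (h : ¬ DPColorable G m) : m < chiDP G := by
  by_contra hcon
  exact h ((dpColorable_chiDP G).mono (by omega))

theorem exists_PDP (G : SimpleGraph V) (m : ℕ) :
    ∃ C : Cover G m, PDP G m = Nat.card {f : V → Fin m // C.IsColoring f} := by
  have hne : {n | ∃ C : Cover G m, n = Nat.card {f : V → Fin m // C.IsColoring f}}.Nonempty :=
    ⟨_, ⟨fun _ _ _ _ => False, fun h => h.elim, fun h => h.elim, fun h => h.elim⟩, rfl⟩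
  exact Nat.sInf_mem hne

end Basic

section Product

variable {V : Type} [Fintype V] {G : SimpleGraph V}

/-- The upper bound `χ_DP(G □ K_{k,t}) ≤ χ_DP(G) + k`. -/
theorem upper (G : SimpleGraph V) (k t : ℕ) :
    DPColorable (G □ completeBipartiteGraph (Fin k) (Fin t)) (chiDP G + k) := by
  classical
  obtain ⟨m, hm⟩ : ∃ m, m = chiDP G + k := ⟨_, rfl⟩
  rw [← hm]
  intro C
  have hG := dpColorable_chiDP G
  -- restriction of a cover to the copy of `G` at `s`
  let res : Fin k ⊕ Fin t → Cover G m := fun s =>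
    { R := fun u v i j => C.R (u, s) (v, s) i j
      adj := by
        intro u v i j h
        have := C.adj h
        rw [boxProd_adj] at this
        rcases this with h1 | h1
        · exact h1.1
        · exact absurd h1.1 (SimpleGraph.irrefl _)
      symm := fun h => C.symm h
      matching := fun h h' => C.matching h h' }
  have hleft : ∀ x : Fin k, ∃ f : V → Fin m, (res (Sum.inl x)).IsColoring f :=
    fun x => (hG.mono (by omega)) (res (Sum.inl x))
  choose fl hfl using hleft
  have hright : ∀ y : Fin t, ∃ f : V → Fin m, (res (Sum.inr y)).IsColoring f ∧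
      ∀ v, f v ∈ Finset.univ.filter
        (fun j : Fin m => ∀ x : Fin k, ¬ C.R (v, Sum.inl x) (v, Sum.inr y) (fl x v) j) := by
    intro y
    apply list_version hG
    intro v
    -- at most `k` colours are blocked
    have h1 : (Finset.univ.filter (fun j : Fin m =>
        ¬ ∀ x : Fin k, ¬ C.R (v, Sum.inl x) (v, Sum.inr y) (fl x v) j)).card ≤ k := by
      have := Finset.card_le_card_of_forall_subsingleton
        (s := Finset.univ.filter (fun j : Fin m =>
          ¬ ∀ x : Fin k, ¬ C.R (v, Sum.inl x) (v, Sum.inr y) (fl x v) j))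
        (t := (Finset.univ : Finset (Fin k)))
        (fun j x => C.R (v, Sum.inl x) (v, Sum.inr y) (fl x v) j) (by
          intro j hj
          have := (Finset.mem_filter.mp hj).2
          push Not at this
          obtain ⟨x, hx⟩ := this
          exact ⟨x, Finset.mem_univ _, hx⟩) (by
          intro x _ j hj j' hj'
          exact C.matching hj.2 hj'.2)
      simpa using this
    have h2 := Finset.card_filter_add_card_filter_not (s := (Finset.univ : Finset (Fin m)))
      (fun j : Fin m => ∀ x : Fin k, ¬ C.R (v, Sum.inl x) (v, Sum.inr y) (fl x v) j)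
    rw [Finset.card_univ, Fintype.card_fin] at h2
    omega
  choose fr hfr1 hfr2 using hright
  have hfr3 : ∀ y v x, ¬ C.R (v, Sum.inl x) (v, Sum.inr y) (fl x v) (fr y v) :=
    fun y v x => (Finset.mem_filter.mp (hfr2 y v)).2 x
  refine ⟨fun p => Sum.elim (fun x => fl x p.1) (fun y => fr y p.1) p.2, ?_⟩
  rintro ⟨u, s⟩ ⟨v, s'⟩ hR
  have hadj := C.adj hR
  rw [boxProd_adj] at hadj
  rcases hadj with ⟨-, hss⟩ | ⟨hadj, huv⟩
  · simp only at hss
    subst hss
    rcases s with x | y
    · exact hfl x u v hR
    · exact hfr1 y u v hR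
  · simp only at huv
    subst huv
    rcases s with x | y <;> rcases s' with x' | y'
    · simp [completeBipartiteGraph] at hadj
    · exact hfr3 y' u x hR
    · exact hfr3 y u x' (C.symm hR)
    · simp [completeBipartiteGraph] at hadj

/-- The key construction: with `t = P^k - 1` right vertices there is a bad cover. -/
theorem lower [Nonempty V] [DecidableRel G.Adj] (k : ℕ) (hk : 2 ≤ k)
    (hm : G.maxDegree + 3 ≤ chiDP G + k) :
    ¬ DPColorable (G □ completeBipartiteGraph (Fin k) (Fin (PDP G (chiDP G + k - 1) ^ k - 1)))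
      (chiDP G + k - 1) := by
  classical
  -- `χ_DP(G) ≥ 1`
  have hchi : 1 ≤ chiDP G := by
    by_contra hcon
    have h0 : chiDP G = 0 := by omega
    have h1 := dpColorable_chiDP G
    rw [h0] at h1
    obtain ⟨f, -⟩ := h1 ⟨fun _ _ _ _ => False, fun h => h.elim, fun h => h.elim, fun h => h.elim⟩
    exact (f (Classical.arbitrary V)).elim0
  set m := chiDP G + k - 1 with hmdef
  set r := chiDP G - 1 with hrdef
  have hmr : m = r + k := by omega
  obtain ⟨C, hC⟩ := exists_PDP G m
  have hbad : ¬ DPColorable G r := by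
    intro h
    have := chiDP_le h
    omega
  obtain ⟨C0, hC0⟩ : ∃ C0 : Cover G r, ¬ ∃ f, C0.IsColoring f := by
    unfold DPColorable at hbad
    push Not at hbad
    obtain ⟨C0, h⟩ := hbad
    exact ⟨C0, fun ⟨f, hf⟩ => h f hf⟩
  -- two disjoint colorings
  have hmpos : 0 < m := by omega
  obtain ⟨ψ1, hψ1, -⟩ := greedy (G := G) (m := m) (by omega) C (fun _ => ⟨0, hmpos⟩)
  obtain ⟨ψ2, hψ2, hdisj⟩ := greedy (G := G) (m := m) (by omega) C ψ1
  let x0 : Fin k := ⟨0, by omega⟩
  let x1 : Fin k := ⟨1, by omega⟩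
  have hx01 : x0 ≠ x1 := by
    intro h
    have := congrArg Fin.val h
    simp [x0, x1] at this
  let σ : Equiv.Perm (Fin k) := Equiv.swap x0 x1
  have hσ0 : σ x0 = x1 := Equiv.swap_apply_left _ _
  have hσ1 : σ x1 = x0 := Equiv.swap_apply_right _ _
  have hσ2 : ∀ x, x ≠ x0 → x ≠ x1 → σ x = x := fun x h0 h1 => Equiv.swap_apply_of_ne_of_ne h0 h1
  let Col := {f : V → Fin m // C.IsColoring f}
  let A : Fin k → Col := fun x => if x = x1 then ⟨ψ2, hψ2⟩ else ⟨ψ1, hψ1⟩
  have hA0 : A x0 = ⟨ψ1, hψ1⟩ := if_neg hx01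
  have hA1 : A x1 = ⟨ψ2, hψ2⟩ := if_pos rfl
  let B : Fin k → Col := fun x => A (σ x)
  have hAv : ∀ x, (x = x0 ∨ x = x1) → ∀ v, (A x).1 v ≠ (A (σ x)).1 v := by
    intro x hx v
    rcases hx with rfl | rfl
    · rw [hσ0, hA0, hA1]
      exact (hdisj v).symm
    · rw [hσ1, hA0, hA1]
      exact hdisj v
  have hAB : A ≠ B := by
    intro h
    have h1 := congrFun h x0
    have h2 : (A x0).1 (Classical.arbitrary V) = (A (σ x0)).1 (Classical.arbitrary V) := by
      rw [h1]
    exact hAv x0 (Or.inl rfl) _ h2
  have hσne : ∀ x, (x = x0 ∨ x = x1) → σ x ≠ x := by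
    intro x hx
    rcases hx with rfl | rfl
    · rw [hσ0]; exact hx01.symm
    · rw [hσ1]; exact hx01
  -- index set of the right vertices
  have hcardT : Fintype.card {τ : Fin k → Col // τ ≠ B} = PDP G m ^ k - 1 := by
    rw [Fintype.card_subtype_compl, Fintype.card_subtype_eq, Fintype.card_fun, Fintype.card_fin,
      hC, Nat.card_eq_fintype_card]
  let e : Fin (PDP G m ^ k - 1) ≃ {τ : Fin k → Col // τ ≠ B} :=
    (finCongr hcardT.symm).trans (Fintype.equivFin _).symm
  let ε : Fin m ≃ Fin r ⊕ Fin k := (finCongr hmr).trans finSumFinEquiv.symm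
  -- the matching between the copies at `inl x` and `inr y`
  let M : Fin (PDP G m ^ k - 1) → V → Fin k → Fin m → Fin k → Prop := fun y v x i c =>
    ((((e y).1 x).1 v = i) ∧ c = x) ∨
      ((e y).1 = A ∧ (x = x0 ∨ x = x1) ∧ (A (σ x)).1 v = i ∧ c = σ x)
  have hM1 : ∀ y v x i c c', M y v x i c → M y v x i c' → c = c' := by
    rintro y v x i c c' (⟨h1, h2⟩ | ⟨h1, h2, h3, h4⟩) (⟨h5, h6⟩ | ⟨h5, h6, h7, h8⟩)
    · rw [h2, h6]
    · exfalso
      rw [h5] at h1
      exact hAv x h6 v (h1.trans h7.symm)
    · exfalso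
      rw [h1] at h5
      exact hAv x h2 v (h5.trans h3.symm)
    · rw [h4, h8]
  have hM2 : ∀ y v x i i' c, M y v x i c → M y v x i' c → i = i' := by
    rintro y v x i i' c (⟨h1, h2⟩ | ⟨h1, h2, h3, h4⟩) (⟨h5, h6⟩ | ⟨h5, h6, h7, h8⟩)
    · rw [← h1, ← h5]
    · exact absurd (h8.symm.trans h2) (hσne x h6)
    · exact absurd (h4.symm.trans h6) (hσne x h2)
    · rw [← h3, ← h7]
  intro hcol
  -- the bad cover
  let W := V × (Fin k ⊕ Fin (PDP G m ^ k - 1))
  let R : W → W → Fin m → Fin m → Prop := fun p q i j =>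
    match p, q with
    | (u, Sum.inl x), (v, Sum.inl x') => x = x' ∧ C.R u v i j
    | (u, Sum.inr y), (v, Sum.inr y') =>
        y = y' ∧ ∃ a b, ε i = Sum.inl a ∧ ε j = Sum.inl b ∧ C0.R u v a b
    | (u, Sum.inl x), (v, Sum.inr y) => u = v ∧ ∃ c, ε j = Sum.inr c ∧ M y u x i c
    | (u, Sum.inr y), (v, Sum.inl x) => u = v ∧ ∃ c, ε i = Sum.inr c ∧ M y u x j c
  let D : Cover (G □ completeBipartiteGraph (Fin k) (Fin (PDP G m ^ k - 1))) m :=
    { R := R
      adj := by
        rintro ⟨u, x | y⟩ ⟨v, x' | y'⟩ i j h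
        · rw [boxProd_adj]
          exact Or.inl ⟨C.adj h.2, congrArg Sum.inl h.1⟩
        · rw [boxProd_adj]
          exact Or.inr ⟨by simp [completeBipartiteGraph], h.1⟩
        · rw [boxProd_adj]
          exact Or.inr ⟨by simp [completeBipartiteGraph], h.1⟩
        · rw [boxProd_adj]
          obtain ⟨h1, a, b, -, -, h2⟩ := h
          exact Or.inl ⟨C0.adj h2, congrArg Sum.inr h1⟩
      symm := by
        rintro ⟨u, x | y⟩ ⟨v, x' | y'⟩ i j h
        · exact ⟨h.1.symm, C.symm h.2⟩
        · obtain ⟨h1, c, h2, h3⟩ := h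
          exact ⟨h1.symm, c, h2, h1 ▸ h3⟩
        · obtain ⟨h1, c, h2, h3⟩ := h
          exact ⟨h1.symm, c, h2, h1 ▸ h3⟩
        · obtain ⟨h1, a, b, h2, h3, h4⟩ := h
          exact ⟨h1.symm, b, a, h3, h2, C0.symm h4⟩
      matching := by
        rintro ⟨u, x | y⟩ ⟨v, x' | y'⟩ i j j' h h'
        · exact C.matching h.2 h'.2
        · obtain ⟨-, c, h2, h3⟩ := h
          obtain ⟨-, c', h2', h3'⟩ := h'
          have := hM1 _ _ _ _ _ _ h3 h3'
          subst this
          exact ε.injective (h2.trans h2'.symm)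
        · obtain ⟨-, c, h2, h3⟩ := h
          obtain ⟨-, c', h2', h3'⟩ := h'
          have hcc : c = c' := Sum.inr_injective (h2.symm.trans h2')
          subst hcc
          exact hM2 _ _ _ _ _ _ h3 h3'
        · obtain ⟨-, a, b, h2, h3, h4⟩ := h
          obtain ⟨-, a', b', h2', h3', h4'⟩ := h'
          have haa : a = a' := Sum.inl_injective (h2.symm.trans h2')
          subst haa
          have hbb := C0.matching h4 h4'
          subst hbb
          exact ε.injective (h3.trans h3'.symm) }
  obtain ⟨f, hf⟩ := hcol D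
  let τ : Fin k → Col := fun x => ⟨fun v => f (v, Sum.inl x), fun u v hR =>
    hf (u, Sum.inl x) (v, Sum.inl x) ⟨rfl, hR⟩⟩
  -- some right copy has all its extra colours blocked
  have hy : ∃ y, ∀ v c, ∃ x, M y v x ((τ x).1 v) c := by
    by_cases hτ : τ = B
    · refine ⟨e.symm ⟨A, hAB⟩, ?_⟩
      intro v c
      have hey : (e (e.symm ⟨A, hAB⟩)).1 = A := by rw [Equiv.apply_symm_apply]
      by_cases hc : c = x0 ∨ c = x1
      · refine ⟨σ c, Or.inr ⟨hey, ?_, ?_, ?_⟩⟩
        · rcases hc with rfl | rfl
          · rw [hσ0]; exact Or.inr rfl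
          · rw [hσ1]; exact Or.inl rfl
        · rw [hτ]
        · rcases hc with rfl | rfl
          · rw [hσ0, hσ1]
          · rw [hσ1, hσ0]
      · rw [not_or] at hc
        refine ⟨c, Or.inl ⟨?_, rfl⟩⟩
        rw [hey, hτ]
        show (A c).1 v = (A (σ c)).1 v
        rw [hσ2 c hc.1 hc.2]
    · refine ⟨e.symm ⟨τ, hτ⟩, ?_⟩
      intro v c
      refine ⟨c, Or.inl ⟨?_, rfl⟩⟩
      rw [Equiv.apply_symm_apply]
  obtain ⟨y, hy⟩ := hy
  have hno : ∀ v, ∃ a, ε (f (v, Sum.inr y)) = Sum.inl a := by
    intro v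
    rcases hcase : ε (f (v, Sum.inr y)) with a | c
    · exact ⟨a, rfl⟩
    · exfalso
      obtain ⟨x, hx⟩ := hy v c
      exact hf (v, Sum.inl x) (v, Sum.inr y) ⟨rfl, c, hcase, hx⟩
  choose a ha using hno
  exact hC0 ⟨a, fun u v hR => hf (u, Sum.inr y) (v, Sum.inr y) ⟨rfl, a u, a v, ha u, ha v, hR⟩⟩

end Product

/-- **Theorem.** Let `G` be a finite graph with at least one vertex and let `k ≥ 2` satisfy
`χ_DP(G) + k - 1 ≥ Δ(G) + 2`. Then `f(G,k) < P_DP(G, χ_DP(G) + k - 1)^k`. (The set whose least
element is `f(G,k)` is nonempty.) In particular the inequality is strict for all large `k`. -/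
theorem result : ∀ (V : Type) [Fintype V] [Nonempty V] (G : SimpleGraph V) [DecidableRel G.Adj]
    (k : ℕ), 2 ≤ k → G.maxDegree + 3 ≤ chiDP G + k →
    (∃ t : ℕ, chiDP (G □ completeBipartiteGraph (Fin k) (Fin t)) = chiDP G + k) ∧
      fDP G k < PDP G (chiDP G + k - 1) ^ k := by
  classical
  intro V _ _ G _ k hk hm
  have h1 := chiDP_le (upper G k (PDP G (chiDP G + k - 1) ^ k - 1))
  have h2 := lt_chiDP (lower (G := G) k hk hm)
  have h3 : chiDP (G □ completeBipartiteGraph (Fin k) (Fin (PDP G (chiDP G + k - 1) ^ k - 1))) =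
      chiDP G + k := by omega
  refine ⟨⟨_, h3⟩, ?_⟩
  have h4 : fDP G k ≤ PDP G (chiDP G + k - 1) ^ k - 1 := Nat.sInf_le h3
  have h5 : 0 < PDP G (chiDP G + k - 1) := by
    obtain ⟨C, hC⟩ := exists_PDP G (chiDP G + k - 1)
    rw [hC]
    obtain ⟨f, hf⟩ := ((dpColorable_chiDP G).mono (show chiDP G ≤ chiDP G + k - 1 by omega)) C
    have : Nonempty {f : V → Fin (chiDP G + k - 1) // C.IsColoring f} := ⟨⟨f, hf⟩⟩
    exact Nat.card_pos
  have h6 : 0 < PDP G (chiDP G + k - 1) ^ k := Nat.pow_pos h5
  omega

end Pool.Agent.Results.MP_924496_co.NeverSharp
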